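import Pool.Agent.Q89.GD4

set_option autoImplicit false

/-!
# Depth versus word length in the Grigorchuk group (Q1: yes, with `μ = 13/25`)

The words over `{0,1}` are `List Bool`; `act x` (defined in `Pool/Agent/Q89/GD1.lean`) is the action of
the generator `x = a, b, c, d` and `gen x` is the corresponding permutation.
-/

namespace Pool.Agent.Results.MP_7efe7b_al.DepthLowerBound

open Pool.Agent.Q89.GD

/-- the Grigorchuk group -/
def G : Subgroup (Equiv.Perm (List Bool)) := Subgroup.closure (Set.range gen)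

/-- word length with respect to `{a, b, c, d}` -/
noncomputable def len (g : Equiv.Perm (List Bool)) : ℕ :=
  sInf {n | ∃ w : List L, w.length = n ∧ (w.map gen).prod = g}

/-- the section of `g` at the vertex `u`: `g (u w) = g(u) (sect g u)(w)` -/
def sect (g : Equiv.Perm (List Bool)) (u : List Bool) : List Bool → List Bool :=
  fun w => (g (u ++ w)).drop u.length

/-- the depth: the least `n` such that all sections at level `n` are in `{1, a, b, c, d}` -/
noncomputable def depth (g : Equiv.Perm (List Bool)) : ℕ :=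
  sInf {n | ∀ u : List Bool, u.length = n → sect g u = id ∨ ∃ x : L, sect g u = act x}

theorem exists_word {g : Equiv.Perm (List Bool)} (hg : g ∈ G) : ∃ w : List L, ev w = g := by
  induction hg using Subgroup.closure_induction with
  | mem x hx => obtain ⟨y, rfl⟩ := hx; exact ⟨[y], by simp⟩
  | one => exact ⟨[], rfl⟩
  | mul x y _ _ hx hy =>
    obtain ⟨w, rfl⟩ := hx
    obtain ⟨v, rfl⟩ := hy
    exact ⟨w ++ v, ev_append w v⟩
  | inv x _ hx =>
    obtain ⟨w, rfl⟩ := hx
    exact ⟨w.reverse, ev_reverse w⟩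

theorem sect_ev (w : List L) (u : List Bool) : sect (ev w) u = ev (secs u w) := by
  funext v
  exact drop_secs u w v

theorem nuc_iff (w : List L) (u : List Bool) :
    (sect (ev w) u = id ∨ ∃ x : L, sect (ev w) u = act x) ↔ Nuc (ev (secs u w)) := by
  rw [sect_ev]
  unfold Nuc
  constructor
  · rintro (h | ⟨x, h⟩)
    · left; ext1 v; exact congrFun h v
    · right; exact ⟨x, by ext1 v; exact congrFun h v⟩
  · rintro (h | ⟨x, h⟩)
    · left; rw [h]; rfl
    · right; exact ⟨x, by rw [h]; rfl⟩

theorem depth_set_eq (w : List L) :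
    {n | ∀ u : List Bool, u.length = n →
      sect (ev w) u = id ∨ ∃ x : L, sect (ev w) u = act x} = {n | Lv n w} := by
  ext n
  simp only [Set.mem_setOf_eq, Lv, nuc_iff]

theorem depth_spec (w : List L) : Lv (depth (ev w)) w := by
  have h : (depth (ev w)) ∈ {n | Lv n w} := by
    unfold depth
    rw [depth_set_eq]
    exact Nat.sInf_mem (exists_Lv w)
  exact h

theorem len_le (w : List L) : len (ev w) ≤ w.length := Nat.sInf_le ⟨w, rfl, rfl⟩

theorem length_le_WT (w : List L) : w.length ≤ WT w := by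
  induction w with
  | nil => simp
  | cons x w ih =>
    rw [List.length_cons, WT_cons]
    have : 1 ≤ wt x := by cases x <;> simp [wt]
    omega

theorem len_pos {g : Equiv.Perm (List Bool)} (hg : g ∈ G) (h1 : g ≠ 1) : 1 ≤ len g := by
  obtain ⟨w, hw⟩ := exists_word hg
  have hmem : len g ∈ {n | ∃ w : List L, w.length = n ∧ (w.map gen).prod = g} :=
    Nat.sInf_mem ⟨w.length, w, rfl, hw⟩
  obtain ⟨v, hv1, hv2⟩ := hmem
  by_contra hlt
  have : v = [] := List.length_eq_zero_iff.1 (by omega)
  subst this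
  exact h1 hv2.symm

/-- **Q1: yes.** In the Grigorchuk group `G` one has
`d(g) ≥ (13/25) log₂ |g| + C` for all `g ≠ 1`, and `13/25 > 1/2`. (The first clause records that the
infimum defining the depth is attained for every element of `G`.) -/
theorem result :
    (∀ g ∈ G, ∀ u : List Bool, u.length = depth g →
      (sect g u = id ∨ ∃ x : L, sect g u = act x)) ∧
    (1 / 2 : ℝ) < 13 / 25 ∧
    ∃ C : ℝ, ∀ g ∈ G, g ≠ 1 → (13 / 25 : ℝ) * Real.logb 2 (len g) + C ≤ (depth g : ℝ) := by
  refine ⟨?_, by norm_num, ?_⟩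
  · intro g hg u hu
    obtain ⟨w, rfl⟩ := exists_word hg
    rw [nuc_iff]
    exact depth_spec w u hu
  obtain ⟨C, hC, hb⟩ := depth_bound
  refine ⟨-(13 / 25 * Real.logb 2 (5 + C)), ?_⟩
  intro g hg hg1
  have hpos := len_pos hg hg1
  obtain ⟨w, rfl⟩ := exists_word hg
  obtain ⟨w', h1, h2⟩ := hb _ w (depth_spec w)
  set n := depth (ev w) with hn
  have h3 : (len (ev w) : ℝ) ≤ (5 + C) * (227 / 60) ^ n := by
    have h4 : len (ev w) ≤ WT w' := by
      rw [← h1]
      exact (len_le w').trans (length_le_WT w')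
    have h5 : (len (ev w) : ℝ) ≤ WT w' := by exact_mod_cast h4
    linarith
  have h6 : Real.logb 2 (len (ev w)) ≤ Real.logb 2 ((5 + C) * (227 / 60) ^ n) :=
    Real.logb_le_logb_of_le (by norm_num) (by exact_mod_cast hpos) h3
  have h7 : Real.logb 2 ((5 + C) * (227 / 60) ^ n) =
      Real.logb 2 (5 + C) + n * Real.logb 2 (227 / 60) := by
    rw [Real.logb_mul (by positivity) (by positivity), Real.logb_pow]
  have h8 : 13 * Real.logb 2 (227 / 60) ≤ 25 := by
    have h9 : Real.logb 2 ((227 / 60 : ℝ) ^ 13) ≤ Real.logb 2 ((2 : ℝ) ^ 25) :=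
      Real.logb_le_logb_of_le (by norm_num) (by positivity) (by norm_num)
    rw [Real.logb_pow, Real.logb_pow, Real.logb_self_eq_one (by norm_num)] at h9
    norm_num at h9
    exact h9
  have hn0 : (0 : ℝ) ≤ n := Nat.cast_nonneg n
  nlinarith

end Pool.Agent.Results.MP_7efe7b_al.DepthLowerBound
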